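import Pool.Agent.R632.CZ.Disp

/-!
# A trichotomy for the single elements of a CAT(0) group: rank one, `ℤ²`, or many half-planes

Let `G` act geometrically on a proper CAT(0) space `X`. There is a constant `A > 0` such that for
every `g ∈ G` with an axis `c` of translation length `τ > 0`:

* `c` bounds no flat half-plane (so `g` is a rank-one isometry), or a positive power `g ^ n` is a
  member of a basis of a subgroup isomorphic to `ℤ²`, or `c` bounds continuum many flat half-planes
  and moreover for every `m` and `D` there are `m + 1` of them any two of which are more than `D`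
  apart from the depth `A exp(A (m τ + D))` on (so the number of half-planes seen at depth `s` grows
  at least like `log s / (A τ)`);
* `g` is a member of a basis of a `ℤ²`, or `d(x, c) ≤ A exp(A d(g x, x))` for every point `x` of `X`:
  the displacement of `g` grows at least logarithmically with the distance from its axis.

Outline of the proof. The closing theorem of the starting library for invariant strips of unbounded
width gives, with its proof, that such strips for one element `g` force a `ℤ²` which contains `g`.
Suppose that `g` is not in a `ℤ²`. Then the axes of `g` have bounded distances, so the centraliser of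
`g` almost fixes an axis `a`. Let `x` be a point with displacement `R = d(g x, x)`; by convexity the
displacement is at most `R` along the segment from the projection of `x` to `a` to `x`. Take points
`x_i` at distance `i L` from `a` on this segment and `h_i ∈ G` with `h_i x_i` near `x₀`. The elements
`h_i g h_i⁻¹` move `x₀` by at most `R + C`. If there are more points than such elements then
`h_i g h_i⁻¹ = h_j g h_j⁻¹` for some `i < j`, so `k = h_j⁻¹ h_i` commutes with `g` and moves `x_i`
near to `x_j`; but `k` almost preserves the distance from `a`. Applied to the powers of `g` this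
separates the translates `H, g H, ..., g ^ m H` of a half-plane `H` bounded by `c`. If `c` bounds at
least one and at most countably many half-planes then a power of `g` preserves one of them (Baire)
and the closing theorem gives a `ℤ²` which contains this power.
-/

set_option autoImplicit false

namespace Pool.Agent.Results.MP_ff40e8_al.ElementTrichotomy

open Metric Set

/-- The inequality of Bruhat and Tits: a complete metric space is CAT(0) if and only if any two
points `p`, `q` have a midpoint `m` such that
`d(x, m)² ≤ (d(x, p)² + d(x, q)²) / 2 - d(p, q)² / 4` for all `x`. -/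
def BruhatTits (X : Type*) [MetricSpace X] : Prop := ∀ p q : X, ∃ m : X, ∀ x : X,
  dist x m ^ 2 ≤ (dist x p ^ 2 + dist x q ^ 2) / 2 - dist p q ^ 2 / 4

/-- `c` is an axis of `g` with translation length `τ`: a geodesic line on which `g` is the
translation by `τ`. -/
def IsAxis {X : Type*} [MetricSpace X] {G : Type*} [Group G] [MulAction G X] (g : G) (τ : ℝ)
    (c : ℝ → X) : Prop := Isometry c ∧ ∀ t, g • c t = c (t + τ)

/-- The flat half-planes of `X` bounded by the line `c`: the maps from the Euclidean half-plane
`ℝ × [0, ∞)` to `X` which preserve distances and extend the parametrisation `c` of the boundary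
line.  (Different maps have different images.) -/
def HalfPlanes {X : Type*} [MetricSpace X] (c : ℝ → X) : Set (ℝ × NNReal → X) :=
  {H | (∀ p q : ℝ × NNReal, dist (H p) (H q) ^ 2 = (p.1 - q.1) ^ 2 + ((p.2 : ℝ) - q.2) ^ 2) ∧
    ∀ t : ℝ, H (t, 0) = c t}

/-- `g` is a member of a basis of a subgroup isomorphic to `ℤ²`. -/
def InZ2 {G : Type*} [Group G] (g : G) : Prop :=
  ∃ φ : Multiplicative (ℤ × ℤ) →* G, Function.Injective φ ∧ φ (Multiplicative.ofAdd (1, 0)) = g

/-- Let `G` act geometrically (by isometries, properly discontinuously, cocompactly) on a proper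
CAT(0) space `X`. There is a constant `A > 0` such that for every `g ∈ G` and every axis `c` of `g`,
with translation length `τ > 0`:
(1) `g` is a member of a basis of a `ℤ²` or `d(x, c) ≤ A exp(A d(g x, x))` for every `x ∈ X`;
(2) `c` bounds no flat half-plane, or a positive power of `g` is a member of a basis of a `ℤ²`, or
`c` bounds continuum many flat half-planes and for every `m` and `D` there are `m + 1` half-planes
bounded by `c` any two of which have distance larger than `D` at every depth larger than
`A exp(A (m τ + D))`. -/
theorem result {X : Type*} [MetricSpace X] [ProperSpace X] (hX : BruhatTits X)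
    {G : Type*} [Group G] [MulAction G X] [IsIsometricSMul G X] [ProperlyDiscontinuousSMul G X]
    (hcc : ∃ K : Set X, IsCompact K ∧ ∀ x : X, ∃ g : G, g • x ∈ K) :
    ∃ A : ℝ, 0 < A ∧ ∀ (g : G) (τ : ℝ) (c : ℝ → X), 0 < τ → IsAxis g τ c →
      (InZ2 g ∨ ∀ x : X, infDist x (range c) ≤ A * Real.exp (A * dist (g • x) x)) ∧
      (HalfPlanes c = ∅ ∨ (∃ n : ℕ, 0 < n ∧ InZ2 (g ^ n)) ∨
        ((∃ Φ : (ℕ → Bool) → (ℝ × NNReal → X), Function.Injective Φ ∧
            ∀ x, Φ x ∈ HalfPlanes c) ∧
          ∀ (m : ℕ) (D : ℝ), ∃ K : Fin (m + 1) → (ℝ × NNReal → X), (∀ i, K i ∈ HalfPlanes c) ∧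
            ∀ i j, i ≠ j → ∀ (t : ℝ) (s : NNReal), A * Real.exp (A * (m * τ + D)) < s →
              D < dist (K i (t, s)) (K j (t, s)))) := by
  have hG : Pool.Agent.Y34.HB.Geo X G := ⟨inferInstance, inferInstance, inferInstance, hcc, hX⟩
  obtain ⟨A, hA, h1⟩ := Pool.Agent.R632.CZ.disp_exp hG
  obtain ⟨A', hA', h2⟩ := Pool.Agent.R632.CZ.diverge hG
  refine ⟨max A A', lt_max_of_lt_left hA, fun g τ c hτ hc => ⟨?_, ?_⟩⟩
  · by_cases hg : InZ2 g
    · exact Or.inl hg
    · right
      intro x
      refine (h1 g τ c x hg hτ hc).trans ?_
      refine mul_le_mul (le_max_left _ _) (Real.exp_le_exp.2 ?_) (Real.exp_pos _).le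
        (le_trans hA.le (le_max_left _ _))
      exact mul_le_mul_of_nonneg_right (le_max_left _ _) dist_nonneg
  · by_cases hn : ∃ n : ℕ, 0 < n ∧ InZ2 (g ^ n)
    · exact Or.inr (Or.inl hn)
    rcases Pool.Agent.Y34.HB.halfplanes Pool.Agent.Y419.HB.t Pool.Agent.Y514.HB.t hG g τ c hc
      with ⟨n, hn0, H, hH, hper⟩ | h | h
    · exact absurd ⟨n, hn0, Pool.Agent.R632.CZ.of_periodic_loc hG (g ^ n) (n * τ)
        (by positivity) c H hH hper⟩ hn
    · exact Or.inl h
    · refine Or.inr (Or.inr ⟨h, fun m D => ?_⟩)
      obtain ⟨Φ, -, hΦ⟩ := h
      push Not at hn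
      by_cases hD : 0 ≤ D
      · obtain ⟨K, hK, hd⟩ := h2 g τ c hn hτ hc _ (hΦ fun _ => true) m D
        refine ⟨K, hK, fun i j hij t s hs => hd i j hij t s (lt_of_le_of_lt ?_ hs)⟩
        refine mul_le_mul (le_max_right _ _) (Real.exp_le_exp.2 ?_) (Real.exp_pos _).le
          (le_trans hA'.le (le_max_right _ _))
        exact mul_le_mul_of_nonneg_right (le_max_right _ _) (by positivity)
      · push Not at hD
        exact ⟨fun _ => Φ fun _ => true, fun _ => hΦ _, fun _ _ _ _ _ _ =>
          lt_of_lt_of_le hD dist_nonneg⟩

end Pool.Agent.Results.MP_ff40e8_al.ElementTrichotomy
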