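import Pool.Agent.R595.RR.Joined

/-!
# Involutions with finite centralizer, the duality condition and rank one isometries

Let `G` act geometrically on a proper CAT(0) space `X`.  Two points `ξ`, `η` of the boundary at
infinity are dual if there are `g ∈ G` such that `g x` is arbitrarily close to `ξ` and `g⁻¹ x` is
arbitrarily close to `η` (`x ∈ X`; this does not depend on `x`).  The duality condition of Chen and
Eberlein is: the two ends of every geodesic line are dual.  It is not known whether it holds for all
geometric actions on geodesically complete CAT(0) spaces, and it is not known whether a geodesic line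
which bounds no flat half-plane always gives a rank one isometry (the first half of the rank rigidity
problem).

**Theorem.** Assume that one of the following holds:
(a) `G` contains an element of order two with finite centralizer;
(b) there is an isometry `s` of `X` which normalizes `G` such that all geodesic segments `[x, s x]`,
    `x ∈ X`, meet a fixed bounded set (for instance a point reflection, that is an isometry of order
    two with bounded fixed point set);
(c) every nonempty closed `G`-invariant subset of the boundary at infinity contains both ends of some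
    geodesic line;
(d) if `A`, `B` are nonempty closed `G`-invariant subsets of the boundary at infinity and every point
    of `A` is dual to every point of `B`, then some geodesic line has one end in `A` and the other
    in `B`.
Then the two ends of every geodesic line are dual, and `G` contains a rank one isometry or every
geodesic line of `X` bounds a flat half-plane.  In the cases (a), (c) every point at infinity is dual
to itself.

Proof.  *Duality is transitive along lines*: if `ζ` is dual to `σ (-∞)` and `σ (∞)` is dual to `η`,
`σ` any geodesic line, then `ζ` is dual to `η`.  In fact let `h o → ζ`, `h⁻¹ o → σ (-∞)` and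
`k o → σ (∞)`, `k⁻¹ o → η`, `o = σ (0)`.  The comparison angle at `o` of the triangle
`(h⁻¹ o, o, k o)` tends to `π`, so the other two tend to `0`; hence `h k o` is seen from `o` in
almost the same direction as `h o`, and `(h k)⁻¹ o` in almost the same direction as `k⁻¹ o`.

(a) is a special case of (b): the fixed point set of `r` is bounded, since the finite centralizer acts
cocompactly on it, and contains the midpoint of `x` and `r x`.  (b) For a point `ξ` at infinity let
`a_n o → ξ`, along a ray, and `φ_n = a_n s a_n⁻¹ = g_n s`, `g_n ∈ G`.  The segments `[x, φ_n x]` pass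
near `a_n o` for all `x`.  So `φ_n x → ξ` and `φ_n⁻¹ x → ξ`, that is `g_n x → ξ` and
`g_n⁻¹ x = s φ_n⁻¹ x → s ξ`: the points `ξ`, `s ξ` are dual for all `ξ`.  For a line `σ` the ends of
`τ = s⁻¹ σ` are dual to those of `σ`, and transitivity along `τ` shows that the ends of `σ` are dual.
(c) The set of the points dual to `ξ` is nonempty, closed and invariant; so it contains both ends of
a line, and `ξ` is dual to itself by transitivity along this line.  Transitivity along a line `σ`
then shows that its ends are dual.  (d) Let `c` be a line, and let `A`, `B` be the sets of the points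
dual to `c (-∞)` and to `c (∞)`.  All points of `A` are dual to all points of `B` by transitivity
along `c`; so there is a line `σ` from `B` to `A`, and transitivity along `σ` shows that `c (∞)` and
`c (-∞)` are dual.  Finally a line without flat half-planes and with dual ends gives
rank one isometries, by the closing lemma.
-/

set_option autoImplicit false

namespace Pool.Agent.Results.MP_ff40e8_al.InvolutionDuality

open Set Metric

/-- The inequality of Bruhat and Tits: a complete metric space is CAT(0) if and only if any two
points `p`, `q` have a midpoint `m` such that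
`d(x, m)² ≤ (d(x, p)² + d(x, q)²) / 2 - d(p, q)² / 4` for all `x`. -/
def BruhatTits (X : Type*) [MetricSpace X] : Prop := ∀ p q : X, ∃ m : X, ∀ x : X,
  dist x m ^ 2 ≤ (dist x p ^ 2 + dist x q ^ 2) / 2 - dist p q ^ 2 / 4

/-- The line `c` bounds a flat half-plane: there is an isometric embedding `H` of the Euclidean
half-plane `ℝ × [0, ∞)` in `X` which extends `c`. -/
def BoundsHalfPlane {X : Type*} [MetricSpace X] (c : ℝ → X) : Prop :=
  ∃ H : ℝ × NNReal → X,
    (∀ p q : ℝ × NNReal, dist (H p) (H q) ^ 2 = (p.1 - q.1) ^ 2 + ((p.2 : ℝ) - q.2) ^ 2) ∧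
    ∀ t : ℝ, H (t, 0) = c t

/-- `g` is a rank one isometry of `X`: it translates a geodesic line `c` by `τ > 0`, and this axis
does not bound a flat half-plane. -/
def IsRankOne (X : Type*) [MetricSpace X] {G : Type*} [Group G] [MulAction G X] (g : G) : Prop :=
  ∃ (τ : ℝ) (c : ℝ → X), 0 < τ ∧ Isometry c ∧ (∀ t, g • c t = c (t + τ)) ∧ ¬ BoundsHalfPlane c

/-- `c` is a geodesic ray, parametrised by `[0, ∞)` (the values at negative numbers do not matter);
its end is a point of the boundary at infinity. -/
def IsRay {X : Type*} [MetricSpace X] (c : ℝ → X) : Prop :=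
  ∀ s t : ℝ, 0 ≤ s → 0 ≤ t → dist (c s) (c t) = |s - t|

/-- The cone with vertex `x` around `y`: the points `p` such that the geodesic from `x` to `p` has
a point `z` at distance `d(x, y)` from `x` with `d(z, y) ≤ 1/4`.  For a ray `c` the cones
`Cone (c 0) (c t)`, `t > 0`, are the (traces in `X` of) neighbourhoods of the end of `c`. -/
def Cone {X : Type*} [MetricSpace X] (x y : X) : Set X :=
  {p | ∃ z : X, dist x z = dist x y ∧ dist x z + dist z p = dist x p ∧ dist z y ≤ 1 / 4}

/-- The ends of the rays `c`, `c'` are dual: there are `g ∈ G` such that `g c(0)` is arbitrarily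
close to the end of `c` and `g⁻¹ c'(0)` is arbitrarily close to the end of `c'`. -/
def DualEnds (G : Type*) {X : Type*} [MetricSpace X] [Group G] [MulAction G X]
    (c c' : ℝ → X) : Prop :=
  ∀ t : ℝ, 0 < t → ∃ g : G, g • c 0 ∈ Cone (c 0) (c t) ∧ g⁻¹ • c' 0 ∈ Cone (c' 0) (c' t)

/-- `A` is the set of all rays with end in a nonempty closed `G`-invariant subset of the boundary at
infinity: it contains with `c` all rays which stay at bounded distance from a translate `g c`, and
all rays which are limits (uniformly on bounded intervals) of rays of `A` with the same origin. -/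
structure IsClosedInvariant (G : Type*) {X : Type*} [MetricSpace X] [Group G] [MulAction G X]
    (A : Set (ℝ → X)) : Prop where
  nonempty : A.Nonempty
  ray : ∀ c ∈ A, IsRay c
  invariant : ∀ c ∈ A, ∀ (g : G) (c' : ℝ → X), IsRay c' →
    (∃ K : ℝ, ∀ t : ℝ, 0 ≤ t → dist (c' t) (g • c t) ≤ K) → c' ∈ A
  closed : ∀ c : ℝ → X, IsRay c → (∀ t : ℝ, 0 < t → ∃ c' ∈ A, c' 0 = c 0 ∧
    dist (c' t) (c t) ≤ 1) → c ∈ A

lemma cone_eq {X : Type*} [MetricSpace X] (x y : X) : Cone x y = Pool.Agent.R595.RR.Cone x y := by
  ext p
  constructor
  · rintro ⟨z, h1, h2, h3⟩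
    exact ⟨z, ⟨h1, by linarith⟩, h3⟩
  · rintro ⟨z, h1, h3⟩
    exact ⟨z, h1.1, by rw [h1.2, h1.1]; ring, h3⟩

lemma dual_iff {G X : Type*} [MetricSpace X] [Group G] [MulAction G X] (c c' : ℝ → X) :
    DualEnds G c c' ↔ Pool.Agent.R595.RR.Du G c c' := by
  simp only [DualEnds, Pool.Agent.R595.RR.Du, cone_eq]

lemma rank_of {G X : Type*} [MetricSpace X] [Group G] [MulAction G X]
    (h : ∃ g : G, Pool.Agent.Y34.EL.RankOne X g) : ∃ g : G, IsRankOne X g := by
  obtain ⟨g, τ, c, hτ, hc, he⟩ := h
  refine ⟨g, τ, c, hτ, hc.1, hc.2, ?_⟩
  rintro ⟨H, hH⟩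
  have : H ∈ Pool.Agent.Y34.HB.HP c := hH
  rw [he] at this
  exact this

lemma hp_empty {X : Type*} [MetricSpace X] {c : ℝ → X} (hn : ¬ BoundsHalfPlane c) :
    Pool.Agent.Y34.HB.HP c = ∅ := by
  by_contra hne
  obtain ⟨H, hH⟩ := Set.nonempty_iff_ne_empty.2 hne
  exact hn ⟨H, hH⟩

/-- (a) `G` contains an involution with finite centralizer. -/
def HasCentralizerFiniteInvolution (G : Type*) [Group G] : Prop :=
  ∃ r : G, r ^ 2 = 1 ∧ (Subgroup.centralizer {r} : Set G).Finite

/-- (b) Some isometry `s` of `X` normalizes `G` and all geodesic segments `[x, s x]` meet the ball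
of radius `B` around `o`. -/
def HasCrossingIsometry (G X : Type*) [MetricSpace X] [Group G] [MulAction G X] : Prop :=
  ∃ s : X ≃ᵢ X, (∀ g : G, ∃ g' : G, ∀ x : X, s (g • x) = g' • s x) ∧
    ∃ (o : X) (B : ℝ), ∀ x : X, ∃ m : X, dist x m + dist m (s x) = dist x (s x) ∧ dist m o ≤ B

/-- (c) Every nonempty closed `G`-invariant subset of the boundary at infinity contains both ends of
some geodesic line. -/
def InvariantSetsContainLines (G X : Type*) [MetricSpace X] [Group G] [MulAction G X] : Prop :=
  ∀ A : Set (ℝ → X), IsClosedInvariant G A →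
    ∃ σ : ℝ → X, Isometry σ ∧ σ ∈ A ∧ (fun t => σ (-t)) ∈ A

/-- (d) Two nonempty closed `G`-invariant subsets of the boundary at infinity such that every point of
the first one is dual to every point of the second one are joined by a geodesic line. -/
def DualSetsJoined (G X : Type*) [MetricSpace X] [Group G] [MulAction G X] : Prop :=
  ∀ A B : Set (ℝ → X), IsClosedInvariant G A → IsClosedInvariant G B →
    (∀ α ∈ A, ∀ β ∈ B, DualEnds G α β) →
      ∃ σ : ℝ → X, Isometry σ ∧ σ ∈ A ∧ (fun t => σ (-t)) ∈ B

/-- Let `G` act geometrically on a proper CAT(0) space `X`.  Assume (a), (b), (c) or (d).  Then the two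
ends of every geodesic line are dual (the duality condition), and `G` contains a rank one isometry or
every geodesic line of `X` bounds a flat half-plane.  In the cases (a), (c) every point at infinity is
dual to itself. -/
theorem result {X : Type*} [MetricSpace X] [ProperSpace X] (hX : BruhatTits X)
    {G : Type*} [Group G] [MulAction G X] [IsIsometricSMul G X] [ProperlyDiscontinuousSMul G X]
    (hcc : ∃ K : Set X, IsCompact K ∧ ∀ x : X, ∃ g : G, g • x ∈ K) :
    (HasCentralizerFiniteInvolution G ∨ HasCrossingIsometry G X ∨ InvariantSetsContainLines G X ∨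
        DualSetsJoined G X →
      (∀ c : ℝ → X, Isometry c → DualEnds G c (fun t => c (-t))) ∧
      ((∃ g : G, IsRankOne X g) ∨ ∀ c : ℝ → X, Isometry c → BoundsHalfPlane c)) ∧
    (HasCentralizerFiniteInvolution G ∨ InvariantSetsContainLines G X →
      ∀ c : ℝ → X, IsRay c → DualEnds G c c) := by
  have hG : Pool.Agent.Y34.HB.Geo X G := ⟨inferInstance, inferInstance, inferInstance, hcc, hX⟩
  have hsd : HasCentralizerFiniteInvolution G ∨ InvariantSetsContainLines G X →
      ∀ c : ℝ → X, Pool.Agent.R595.RR.IsRay c → Pool.Agent.R595.RR.Du G c c := by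
    intro hyp c hc
    rcases hyp with ⟨r, hr, hfin⟩ | hS
    · exact Pool.Agent.R595.RR.self_dual hG r (by rw [← pow_two]; exact hr) hfin hc
    · refine Pool.Agent.R595.RR.self_dual_S hG (fun A hA => ?_) hc
      exact hS A ⟨hA.nonempty, hA.ray, hA.invariant, hA.closed⟩
  refine ⟨fun hyp => ?_, fun hyp c hc => (dual_iff _ _).2 (hsd hyp c hc)⟩
  have hd : ∀ c : ℝ → X, Isometry c → Pool.Agent.R595.RR.Du G c (fun t => c (-t)) := by
    intro c hc
    rcases hyp with h | ⟨s, hn, o, B, hb⟩ | h | h
    · exact Pool.Agent.R595.RR.dual_ends hG (hsd (Or.inl h)) hc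
    · exact Pool.Agent.R595.RR.dual_line_s hG s hn hb hc
    · exact Pool.Agent.R595.RR.dual_ends hG (hsd (Or.inr h)) hc
    · refine Pool.Agent.R595.RR.dual_line_d hG (fun A B hA hB hAB => ?_) hc
      exact h A B ⟨hA.nonempty, hA.ray, hA.invariant, hA.closed⟩
        ⟨hB.nonempty, hB.ray, hB.invariant, hB.closed⟩
        (fun α hα β hβ => (dual_iff _ _).2 (hAB α hα β hβ))
  refine ⟨fun c hc => (dual_iff _ _).2 (hd c hc), ?_⟩
  by_cases h : ∀ c : ℝ → X, Isometry c → BoundsHalfPlane c
  · exact Or.inr h
  · left
    push Not at h
    obtain ⟨c, hc, hn⟩ := h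
    exact rank_of (Pool.Agent.R595.RR.dual_rank hG hd hc (hp_empty hn))

end Pool.Agent.Results.MP_ff40e8_al.InvolutionDuality
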