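import Pool.Agent.R595.RR.Link

/-!
# Rank one isometries and the Patterson-Sullivan mass at the ends of a rank one line

Let `G` act geometrically on a proper CAT(0) space `X`, let `c` be a geodesic line in `X` which does
not bound a flat half-plane, put `x = c 0`.  For `T > 0` let `U` and `V` be the cones with vertex
`x` at the two ends of `c` (the points `p` such that the geodesic from `x` to `p` passes within
`1/4` of `c (-T)`, of `c T`, at distance `T` from `x`).

**Theorem.**  Assume that `G` contains no rank one isometry.  Then for some `T > 0`: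
(1) there is a number `C` such that every element of `G` is in at most `C` ways a product `a b` with
`a⁻¹ x ∈ U` and `b x ∈ V`;
(2) the Poincaré series `P_W(s) = ∑_{g x ∈ W} exp (-s d(x, g x))` satisfy `P_U(s) P_V(s) ≤ C P(s)`
for all `s ≥ 0`;
(3) `P(s) → ∞` for `s ↓ δ`, where `δ` is the critical exponent, and the normalised orbit measures
`μ_s(W) = P_W(s) / P(s)` satisfy `μ_s(U) μ_s(V) → 0` for `s ↓ δ`.

The weak limits of the measures `μ_s` for `s ↓ δ` are the Patterson-Sullivan measures of `G`.  So
if both ends of some geodesic line which bounds no flat half-plane are in the support of a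
Patterson-Sullivan measure, then `G` contains a rank one isometry: alternative (iii) of rank
rigidity holds.

Idea of the proof.  A segment from a point of `U` to a point of `V` passes within a fixed distance
`R` of `x`.  If `g = a b = a' b'` are two decompositions as in (1) and `d(x, a' x) - d(x, a x)` is
large, then `[x, g x]` passes near `a x` and later near `a' x`; it follows that `h = a⁻¹ a'` moves
`x` far away, `h x` is seen from `x` in the direction of `c (∞)` and `h⁻¹ x` in the direction of
`c (-∞)`, so `h` is a rank one isometry by the closing lemma.  Hence all `a x` are near one point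
of `[x, g x]`.  This is (1), and (2) follows because of `d(x, a b x) ≤ d(x, a x) + d(x, b x)`.
-/

set_option autoImplicit false

namespace Pool.Agent.Results.MP_ff40e8_al.PattersonSullivanEnds

open Set Metric Filter Topology
open scoped ENNReal

/-- The inequality of Bruhat and Tits: a complete metric space is CAT(0) if and only if any two
points `p`, `q` have a midpoint `m` such that
`d(x, m)² ≤ (d(x, p)² + d(x, q)²) / 2 - d(p, q)² / 4` for all `x`. -/
def BruhatTits (X : Type*) [MetricSpace X] : Prop := ∀ p q : X, ∃ m : X, ∀ x : X,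
  dist x m ^ 2 ≤ (dist x p ^ 2 + dist x q ^ 2) / 2 - dist p q ^ 2 / 4

/-- The line `c` bounds a flat half-plane: there is an isometric embedding `H` of the Euclidean
half-plane `ℝ × [0, ∞)` in `X` which extends `c`. -/
def BoundsHalfPlane {X : Type*} [MetricSpace X] (c : ℝ → X) : Prop :=
  ∃ H : ℝ × NNReal → X,
    (∀ p q : ℝ × NNReal, dist (H p) (H q) ^ 2 = (p.1 - q.1) ^ 2 + ((p.2 : ℝ) - q.2) ^ 2) ∧
    ∀ t : ℝ, H (t, 0) = c t

/-- `g` is a rank one isometry of `X`: it translates a geodesic line `c` by `τ > 0`, and this axis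
does not bound a flat half-plane. -/
def IsRankOne (X : Type*) [MetricSpace X] {G : Type*} [Group G] [MulAction G X] (g : G) : Prop :=
  ∃ (τ : ℝ) (c : ℝ → X), 0 < τ ∧ Isometry c ∧ (∀ t, g • c t = c (t + τ)) ∧ ¬ BoundsHalfPlane c

/-- The cone with vertex `x` around `y`: the points `p` such that the geodesic from `x` to `p` has
a point `z` at distance `d(x, y)` from `x` with `d(z, y) ≤ 1/4`. -/
def Cone {X : Type*} [MetricSpace X] (x y : X) : Set X :=
  {p | ∃ z : X, dist x z = dist x y ∧ dist x z + dist z p = dist x p ∧ dist z y ≤ 1 / 4}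

/-- The Poincaré series `P_W(s)`: the sum, in `[0, ∞]`, of `exp (-s d(x, g x))` over the elements
`g` of `G` such that `g x` is in `W`. -/
noncomputable def Poincare (G : Type*) {X : Type*} [MetricSpace X] [Group G] [MulAction G X]
    (x : X) (W : Set X) (s : ℝ) : ℝ≥0∞ :=
  ∑' g : {g : G // g • x ∈ W}, ENNReal.ofReal (Real.exp (-s * dist x (g.1 • x)))

/-- The critical exponent: the infimum of all `s` such that the Poincaré series converges. -/
noncomputable def CriticalExponent (G : Type*) {X : Type*} [MetricSpace X] [Group G]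
    [MulAction G X] (x : X) : ℝ :=
  sInf {s : ℝ | Poincare G x univ s ≠ ⊤}

/-- The normalised orbit measures `μ_s(W) = P_W(s) / P(s)`. -/
noncomputable def OrbitMass (G : Type*) {X : Type*} [MetricSpace X] [Group G] [MulAction G X]
    (x : X) (W : Set X) (s : ℝ) : ℝ≥0∞ :=
  Poincare G x W s / Poincare G x univ s

lemma poincare_eq {G : Type*} {X : Type*} [MetricSpace X] [Group G] [MulAction G X] (x : X)
    (W : Set X) (s : ℝ) : Poincare G x W s =
      Pool.Agent.R595.RR.PS (fun g : G => dist x (g • x)) s {g : G | g • x ∈ W} := by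
  rw [Poincare, Pool.Agent.R595.RR.PS]
  exact tsum_subtype {g : G | g • x ∈ W}
    (fun g => ENNReal.ofReal (Real.exp (-s * dist x (g • x))))

/-- Let `G` act geometrically on a proper CAT(0) space `X` and assume that `G` contains no rank one
isometry.  Let `c` be a geodesic line which bounds no flat half-plane.  Then there are `T > 0` and
`C` such that, for the cones `U`, `V` with vertex `c 0` around `c (-T)` and `c T`: every element
of `G` is in at most `C` ways a product `a b` with `a⁻¹ (c 0) ∈ U`, `b (c 0) ∈ V`; the Poincaré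
series satisfy `P_U(s) P_V(s) ≤ C P(s)` for `s ≥ 0`; and `P(s) → ∞`, `μ_s(U) μ_s(V) → 0` when `s`
decreases to the critical exponent. -/
theorem result {X : Type*} [MetricSpace X] [ProperSpace X] (hX : BruhatTits X)
    {G : Type*} [Group G] [MulAction G X] [IsIsometricSMul G X] [ProperlyDiscontinuousSMul G X]
    (hcc : ∃ K : Set X, IsCompact K ∧ ∀ x : X, ∃ g : G, g • x ∈ K)
    (hno : ∀ g : G, ¬ IsRankOne X g)
    (c : ℝ → X) (hc : Isometry c) (hn : ¬ BoundsHalfPlane c) :
    ∃ (T : ℝ) (C : ℕ), 0 < T ∧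
      (∀ g : G, {p : G × G | p.1 * p.2 = g ∧ p.1⁻¹ • c 0 ∈ Cone (c 0) (c (-T)) ∧
        p.2 • c 0 ∈ Cone (c 0) (c T)}.encard ≤ C) ∧
      (∀ s : ℝ, 0 ≤ s → Poincare G (c 0) (Cone (c 0) (c (-T))) s *
        Poincare G (c 0) (Cone (c 0) (c T)) s ≤ C * Poincare G (c 0) univ s) ∧
      Tendsto (fun s => Poincare G (c 0) univ s) (𝓝[>] (CriticalExponent G (c 0))) (𝓝 ⊤) ∧
      Tendsto (fun s => OrbitMass G (c 0) (Cone (c 0) (c (-T))) s *
        OrbitMass G (c 0) (Cone (c 0) (c T)) s) (𝓝[>] (CriticalExponent G (c 0))) (𝓝 0) := by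
  have hG : Pool.Agent.Y34.HB.Geo X G := ⟨inferInstance, inferInstance, inferInstance, hcc, hX⟩
  have hno' : ∀ g : G, ¬ Pool.Agent.Y34.EL.RankOne X g := by
    rintro g ⟨τ, c, hτ, hc, he⟩
    refine hno g ⟨τ, c, hτ, hc.1, hc.2, ?_⟩
    rintro ⟨H, hH⟩
    have : H ∈ Pool.Agent.Y34.HB.HP c := hH
    rw [he] at this
    exact this
  have hHP : Pool.Agent.Y34.HB.HP c = ∅ := by
    by_contra hne
    obtain ⟨H, hH⟩ := Set.nonempty_iff_ne_empty.2 hne
    exact hn ⟨H, hH⟩
  have hcone : ∀ x y : X, Cone x y = Pool.Agent.R595.RR.Cone x y := by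
    intro x y
    ext p
    constructor
    · rintro ⟨z, h1, h2, h3⟩
      exact ⟨z, ⟨h1, by linarith⟩, h3⟩
    · rintro ⟨z, h1, h3⟩
      exact ⟨z, h1.1, by rw [h1.2, h1.1]; ring, h3⟩
  obtain ⟨T, C, hT, hC⟩ := Pool.Agent.R595.RR.main hG hno' c hc hHP
  obtain ⟨K, hl⟩ := Pool.Agent.R595.RR.len hG c hc
  have hcrit : CriticalExponent G (c 0) =
      Pool.Agent.R595.RR.crit (fun g : G => dist (c 0) (g • c 0)) := by
    rw [CriticalExponent, Pool.Agent.R595.RR.crit]
    congr 1
    ext s
    show Poincare G (c 0) univ s ≠ ⊤ ↔ _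
    rw [poincare_eq]
    rfl
  set A : Set G := {g : G | g • c 0 ∈ Cone (c 0) (c (-T))} with hA
  set B : Set G := {g : G | g • c 0 ∈ Cone (c 0) (c T)} with hB
  have hC' : ∀ g : G, {a : G | a⁻¹ ∈ A ∧ a⁻¹ * g ∈ B}.encard ≤ C := by
    intro g
    refine le_trans (encard_le_encard ?_) (hC g)
    rintro a ⟨h1, h2⟩
    rw [← hcone, ← hcone]
    exact ⟨h1, h2⟩
  have huniv : ∀ s : ℝ, Poincare G (c 0) univ s =
      Pool.Agent.R595.RR.PS (fun g : G => dist (c 0) (g • c 0)) s univ := by
    intro s
    rw [poincare_eq]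
    rfl
  refine ⟨T, C, hT, fun g => ?_, fun s hs => ?_, ?_, ?_⟩
  · have h1 : {p : G × G | p.1 * p.2 = g ∧ p.1⁻¹ • c 0 ∈ Cone (c 0) (c (-T)) ∧
        p.2 • c 0 ∈ Cone (c 0) (c T)} ⊆
        (fun a : G => (a, a⁻¹ * g)) '' {a : G | a⁻¹ ∈ A ∧ a⁻¹ * g ∈ B} := by
      rintro ⟨a, b⟩ ⟨h2, h3, h4⟩
      simp only at h2 h3 h4
      subst h2
      refine ⟨a, ⟨h3, ?_⟩, ?_⟩
      · rw [inv_mul_cancel_left]
        exact h4
      · simp only [inv_mul_cancel_left]
    exact (encard_le_encard h1).trans ((encard_image_le _ _).trans (hC' g))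
  · rw [poincare_eq, poincare_eq, huniv]
    exact Pool.Agent.R595.RR.prod_le hl A B C hC' hs
  · rw [hcrit]
    refine (Pool.Agent.R595.RR.tendsto_top hl).congr fun s => ?_
    rw [huniv]
  · rw [hcrit]
    refine (Pool.Agent.R595.RR.null hl A B C hC').congr fun s => ?_
    rw [OrbitMass, OrbitMass, huniv, poincare_eq, poincare_eq]

end Pool.Agent.Results.MP_ff40e8_al.PattersonSullivanEnds
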