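import Pool.Agent.R524.SD.Elem

/-!
# Rank one isometries of CAT(0) groups and functions of gradient `o(1 / |h|)`

Let `G` act geometrically on a proper CAT(0) space `X`, let `S` be a finite symmetric generating
set of `G` and `|h| = d(o, h o)`.

* (Elements.)  Let `g ∈ G` have an axis `c`.  Then `c` bounds no flat half-plane (`g` is a rank one
  isometry) if and only if some function `f : G → ℝ` of gradient `o(1 / |h|)` separates the powers
  of `g` from their inverses: `f(g ^ n) - f(g ^ (-n))` does not tend to `0`.  In this case there is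
  `f : G → [0, 1]` of gradient `O(1 / (|h| log |h|))` with `f(g ^ n) → 1` and `f(g ^ (-n)) → 0`.
* (Groups.)  If `X` is geodesically complete then alternative (iii) of rank rigidity, `G` contains a
  rank one isometry of `X`, holds if and only if there is a function `f : G → ℝ` of gradient
  `o(1 / |h|)` which is not asymptotically radial.  So rank rigidity is equivalent to: if `X` is
  irreducible and every function of gradient `o(1 / |h|)` on `G` is asymptotically radial then `X` is
  a symmetric space of higher rank or a Euclidean building.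

Idea of the proof.  An axis `c` without half-planes is contracting: a set of diameter at most
`θ d(x, c)` containing `x` has projection to `c` of diameter at most `L` (otherwise there are points
`x`, `y` with `d(x, y)` small with respect to `d(x, c)` whose projections are at distance exactly
`L`, and then the segment between the points at height `h` of the perpendiculars is almost parallel
to `c`; a limit of translates by powers of `g` is a line parallel to `c` at distance `h`, and these
lines give a half-plane).  Let `φ(x)` be the coordinate of the projection of `x` to `c`.  The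
function `F = φ / log |x|`, truncated to `[0, 1]`, has oscillation `O(1 / log |x|)` on the ball of
radius `θ |x|` around `x`: where it is not locally constant, `|φ(x)| ≤ 2 log |x|`, so `x` is at
distance at least `|x| / 2` from `c` and `φ` is constant up to `2 L` on this ball.  Now smooth `F`
at the scale `|x|`.
-/

set_option autoImplicit false

namespace Pool.Agent.Results.MP_ff40e8_al.SeparatingFunctions

open Set Metric Filter Topology

/-- The inequality of Bruhat and Tits: a complete metric space is CAT(0) if and only if any two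
points `p`, `q` have a midpoint `m` such that
`d(x, m)² ≤ (d(x, p)² + d(x, q)²) / 2 - d(p, q)² / 4` for all `x`. -/
def BruhatTits (X : Type*) [MetricSpace X] : Prop := ∀ p q : X, ∃ m : X, ∀ x : X,
  dist x m ^ 2 ≤ (dist x p ^ 2 + dist x q ^ 2) / 2 - dist p q ^ 2 / 4

/-- Every geodesic segment extends to a geodesic line: for `p ≠ q` there is a line through `p` and
`q` (in a CAT(0) space it contains the unique geodesic segment from `p` to `q`). -/
def GeodesicallyComplete (X : Type*) [MetricSpace X] : Prop :=
  ∀ p q : X, p ≠ q → ∃ c : ℝ → X, Isometry c ∧ c 0 = p ∧ c (dist p q) = q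

/-- The line `c` bounds a flat half-plane: there is an isometric embedding `H` of the Euclidean
half-plane `ℝ × [0, ∞)` in `X` which extends `c`. -/
def BoundsHalfPlane {X : Type*} [MetricSpace X] (c : ℝ → X) : Prop :=
  ∃ H : ℝ × NNReal → X,
    (∀ p q : ℝ × NNReal, dist (H p) (H q) ^ 2 = (p.1 - q.1) ^ 2 + ((p.2 : ℝ) - q.2) ^ 2) ∧
    ∀ t : ℝ, H (t, 0) = c t

/-- `g` is a rank one isometry of `X`: it translates a geodesic line `c` by `τ > 0`, and this axis
does not bound a flat half-plane. -/
def IsRankOne (X : Type*) [MetricSpace X] {G : Type*} [Group G] [MulAction G X] (g : G) : Prop :=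
  ∃ (τ : ℝ) (c : ℝ → X), 0 < τ ∧ Isometry c ∧ (∀ t, g • c t = c (t + τ)) ∧ ¬ BoundsHalfPlane c

/-- `|g| = d(o, g o)` -/
noncomputable def length {X : Type*} [MetricSpace X] {G : Type*} [Group G] [MulAction G X] (o : X)
    (g : G) : ℝ := dist o (g • o)

/-- `f : G → ℝ` has gradient `o(1 / |h|)` on the Cayley graph with edges `{h, h s}`, `s ∈ S`. -/
def SmallGradient {X : Type*} [MetricSpace X] {G : Type*} [Group G] [MulAction G X] (o : X)
    (S : Finset G) (f : G → ℝ) : Prop :=
  ∀ s ∈ S, Tendsto (fun h : G => length o h * |f (h * s) - f h|) cofinite (𝓝 0)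

/-- `f : G → ℝ` is asymptotically radial: for every `D`, `f(g) - f(h)` tends to `0` as `|g|` tends
to infinity with `||g| - |h|| ≤ D`. -/
def AsymptoticallyRadial {X : Type*} [MetricSpace X] {G : Type*} [Group G] [MulAction G X] (o : X)
    (f : G → ℝ) : Prop :=
  ∀ D ε : ℝ, 0 < ε → ∃ R : ℝ, ∀ g h : G, R ≤ length o g → |length o g - length o h| ≤ D →
    |f g - f h| ≤ ε

/-- Let `G` act geometrically (by isometries, properly discontinuously, cocompactly) on a proper
CAT(0) space `X`, let `S` be a finite symmetric generating set of `G`.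

(1) For `g ∈ G` with axis `c` the following are equivalent: `c` bounds no flat half-plane; there is
`f : G → ℝ` of gradient `o(1 / |h|)` such that `f(g ^ n) - f(g ^ (-n))` does not tend to `0`; there
is `f : G → [0, 1]` with `|f(h s) - f(h)| ≤ C / (|h| log |h|)` for all `|h| ≥ 2`, `s ∈ S`, such that
`f(g ^ n) → 1` and `f(g ^ (-n)) → 0`.

(2) If `X` is geodesically complete then `G` contains a rank one isometry if and only if there is a
function on `G` of gradient `o(1 / |h|)` which is not asymptotically radial. -/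
theorem result {X : Type*} [MetricSpace X] [ProperSpace X] (hX : BruhatTits X)
    {G : Type*} [Group G] [MulAction G X] [IsIsometricSMul G X] [ProperlyDiscontinuousSMul G X]
    (hcc : ∃ K : Set X, IsCompact K ∧ ∀ x : X, ∃ g : G, g • x ∈ K)
    (S : Finset G) (hS : ∀ s ∈ S, s⁻¹ ∈ S) (hgen : Subgroup.closure (S : Set G) = ⊤) (o : X) :
    (∀ (g : G) (τ : ℝ) (c : ℝ → X), 0 < τ → Isometry c → (∀ t, g • c t = c (t + τ)) →
      [¬ BoundsHalfPlane c,
        ∃ f : G → ℝ, SmallGradient o S f ∧
          ¬ Tendsto (fun n : ℕ => f (g ^ n) - f (g⁻¹ ^ n)) atTop (𝓝 0),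
        ∃ (f : G → ℝ) (C : ℝ), (∀ h, 0 ≤ f h ∧ f h ≤ 1) ∧
          (∀ h, ∀ s ∈ S, 2 ≤ length o h →
            |f (h * s) - f h| ≤ C / (length o h * Real.log (length o h))) ∧
          Tendsto (fun n : ℕ => f (g ^ n)) atTop (𝓝 1) ∧
          Tendsto (fun n : ℕ => f (g⁻¹ ^ n)) atTop (𝓝 0)].TFAE) ∧
    (GeodesicallyComplete X →
      ((∃ g : G, IsRankOne X g) ↔
        ∃ f : G → ℝ, SmallGradient o S f ∧ ¬ AsymptoticallyRadial o f)) := by
  have hG : Pool.Agent.Y34.HB.Geo X G := ⟨inferInstance, inferInstance, inferInstance, hcc, hX⟩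
  have hl := Pool.Agent.R524.GR.len_geo hG o
  have hHP : ∀ c : ℝ → X, ¬ BoundsHalfPlane c → Pool.Agent.Y34.HB.HP c = ∅ := by
    intro c hc
    refine eq_empty_iff_forall_notMem.2 fun H hH => hc ⟨H, hH⟩
  refine ⟨fun g τ c hτ hc hax => ?_, fun hGC => ⟨?_, ?_⟩⟩
  · tfae_have 1 → 3 := by
      intro h
      obtain ⟨f, C, h1, h2, h3, h4, -⟩ :=
        Pool.Agent.R524.SD.exists_fun hX hc hax hτ (hHP c h) S o
      exact ⟨f, C, h1, h2, h3, h4⟩
    tfae_have 3 → 2 := by
      rintro ⟨f, C, h1, h2, h3, h4⟩
      refine ⟨f, Pool.Agent.R524.SD.small_grad hl f C h2, fun h => ?_⟩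
      have h5 := tendsto_nhds_unique h (h3.sub h4)
      norm_num at h5
    tfae_have 2 → 1 := by
      rintro ⟨f, h1, h2⟩ ⟨H, hH, hH0⟩
      exact h2 (Pool.Agent.R524.SD.half_small hG o S hS hgen hax hτ H hH hH0 f h1)
    tfae_finish
  · rintro ⟨g, τ, c, hτ, hc, hax, h⟩
    obtain ⟨f, C, h1, h2, h3, h4, h5⟩ :=
      Pool.Agent.R524.SD.exists_fun hX hc hax hτ (hHP c h) S o
    refine ⟨f, Pool.Agent.R524.SD.small_grad hl f C h2, fun hrad => ?_⟩
    obtain ⟨R, hR⟩ := hrad 0 (1 / 2) (by norm_num)
    have e1 := h3.eventually (lt_mem_nhds (show (3 / 4 : ℝ) < 1 by norm_num))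
    have e2 := h4.eventually (gt_mem_nhds (show (0 : ℝ) < 1 / 4 by norm_num))
    obtain ⟨n, hn1, hn2, hn3⟩ := (e1.and (e2.and (h5.eventually_ge_atTop R))).exists
    have e3 : length o (g⁻¹ ^ n) = length o (g ^ n) := by
      rw [inv_pow]
      exact hl.inv (g ^ n)
    have e4 := abs_le.1 (hR (g ^ n) (g⁻¹ ^ n) hn3 (by rw [e3, sub_self, abs_zero]))
    linarith [e4.2]
  · rintro ⟨f, h1, h2⟩
    by_contra hno
    refine h2 fun D ε hε => ?_
    refine Pool.Agent.R524.GR.radial (Pool.Agent.R524.GR.short_geo hG hGC (fun g hg => ?_) o S hS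
      hgen) f h1 D ε hε
    obtain ⟨τ, c, hτ, hc, he⟩ := hg
    refine hno ⟨g, τ, c, hτ, hc.1, hc.2, ?_⟩
    rintro ⟨H, hH⟩
    have : H ∈ Pool.Agent.Y34.HB.HP c := hH
    rw [he] at this
    exact this

end Pool.Agent.Results.MP_ff40e8_al.SeparatingFunctions
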